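import Mathlib
import Pool.Agent.Y719.SU.Def
import Pool.Agent.Y215.SP.Defs
import Pool.Agent.Y215.SK.Defs2

set_option autoImplicit false

/-!
Points of projective varieties which are sums of few multiples of vectors, with multipliers of small
height or in a group of finite rank: definitions.
-/

namespace Pool.Agent.X332.FR

open NumberField MvPolynomial
open Pool.Agent.Helper259.AbsHt Pool.Agent.Y719.SU Pool.Agent.Y215.SP Pool.Agent.Y215.SK

/-- `x` is a vector of homogeneous coordinates of a point which is a zero of all the forms in the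
ideal `I`, but not of all the forms in the ideal `I'`. -/
def Off {R A : Type} [CommRing R] [CommRing A] {N : ℕ} (φ : R →+* A)
    (I I' : Ideal (MvPolynomial (Fin (N + 1)) R)) (x : Fin (N + 1) → A) : Prop :=
  x ≠ 0 ∧ OnI φ I x ∧ ¬ OnI φ I' x

variable {K : Type} [Field K] [NumberField K] {N : ℕ}

/-- For all embeddings of `K` in `ℚ̄`, all finitely generated groups `Γ` of algebraic numbers and all
`r`: the height of the points of `X` outside of `Z` with homogeneous coordinates `∑ u_j V_j`, where
the `u_j` are `r` elements of the division group of `Γ` and the `V_j` are `r` vectors of algebraic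
numbers, is at most a constant times `1` plus the height of the system of the vectors. -/
def SumHeight (I I' : Ideal (MvPolynomial (Fin (N + 1)) K)) : Prop :=
  ∀ (e : K →+* Qbar) (Γ : Subgroup Qbarˣ), Γ.FG → ∀ r : ℕ, ∃ C : ℝ,
    ∀ (u : Fin r → Qbarˣ) (V : Fin r → Fin (N + 1) → Qbar), (∀ j, u j ∈ DivHull Γ) →
      Off e I I' (Y215.SK.psum Finset.univ u V) →
      absLogHeight (Y215.SK.psum Finset.univ u V) ≤ C * (1 + hV V)

/-- For all finite extensions `L` of `K`, embedded in `ℚ̄`, all finitely generated groups `Γ` of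
algebraic numbers, all `r` and `B`: only finitely many points of `X(L)` outside of `Z` have
homogeneous coordinates `∑ u_j V_j`, where the `u_j` are `r` elements of the division group of `Γ` and
the `V_j` are `r` vectors of algebraic numbers with height at most `B`. -/
def SumFinite (I I' : Ideal (MvPolynomial (Fin (N + 1)) K)) : Prop :=
  ∀ (L : Type) [Field L] [NumberField L] [Algebra K L] (φ : L →+* Qbar) (Γ : Subgroup Qbarˣ),
    Γ.FG → ∀ (r : ℕ) (B : ℝ), {p : Projectivization L (Fin (N + 1) → L) |
      ∃ (y : Fin (N + 1) → L) (hy : y ≠ 0), p = Projectivization.mk L y hy ∧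
        Off (algebraMap K L) I I' y ∧ ∃ (u : Fin r → Qbarˣ) (V : Fin r → Fin (N + 1) → Qbar),
          (∀ j, u j ∈ DivHull Γ) ∧ hV V ≤ B ∧
          Y215.SK.psum Finset.univ u V = fun a => φ (y a)}.Finite

/-- the points over `ℚ̄` of `X` outside of `Z` with homogeneous coordinates `∑ s_j u_j V_j`, where the
`u_j` are in the division group of `Γ` and `(s_1 : … : s_r)` has height less than `ε` -/
def nearPts {r : ℕ} (e : K →+* Qbar) (I I' : Ideal (MvPolynomial (Fin (N + 1)) K))
    (Γ : Subgroup Qbarˣ) (ε : ℝ) (V : Fin r → Fin (N + 1) → Qbar) :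
    Set (Projectivization Qbar (Fin (N + 1) → Qbar)) :=
  {p | ∃ (u : Fin r → Qbarˣ) (s : Fin r → Qbar), (∀ j, u j ∈ DivHull Γ) ∧ absLogHeight s < ε ∧
    Off e I I' (Y215.SK.psum Finset.univ u (fun j a => s j * V j a)) ∧
    ∃ h : Y215.SK.psum Finset.univ u (fun j a => s j * V j a) ≠ 0,
      p = Projectivization.mk Qbar (Y215.SK.psum Finset.univ u (fun j a => s j * V j a)) h}

/-- For every `r` there is `ε > 0` such that for all embeddings of `K` in `ℚ̄` and all finitely
generated groups `Γ` the set of the points of `X(ℚ̄)` outside of `Z` with homogeneous coordinates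
`∑ s_j u_j V_j`, with `u_j` in the division group of `Γ` and `(s_1 : … : s_r)` of height less than
`ε`, is finite for all `V`, and the number of its elements is bounded by a polynomial in the height
of `V` which does not depend on `V`. -/
def NearFinite (I I' : Ideal (MvPolynomial (Fin (N + 1)) K)) : Prop :=
  ∀ r : ℕ, ∃ ε : ℝ, 0 < ε ∧ ∀ (e : K →+* Qbar) (Γ : Subgroup Qbarˣ), Γ.FG →
    ∃ (A : ℝ) (m : ℕ), ∀ V : Fin r → Fin (N + 1) → Qbar, (nearPts e I I' Γ ε V).Finite ∧
      ((nearPts e I I' Γ ε V).ncard : ℝ) ≤ A * (1 + hV V) ^ m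

/-- For every `r` there are `ε > 0` and `M` such that for all fields `L` containing `K` and embeddings
of `ℚ̄` in `L` and all vectors `v_1, …, v_r` over `L` at most `M` points of `X(L)` outside of `Z` have
homogeneous coordinates `∑ t_j v_j` with `t_j ∈ ℚ̄` and `(t_1 : … : t_r)` of height less than `ε`. -/
def SmallUniform (I I' : Ideal (MvPolynomial (Fin (N + 1)) K)) : Prop :=
  ∀ r : ℕ, ∃ (ε : ℝ) (M : ℕ), 0 < ε ∧ ∀ (L : Type) [Field L] [Algebra K L] (ι : Qbar →+* L)
    (v : Fin r → Fin (N + 1) → L), ({p : Projectivization L (Fin (N + 1) → L) |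
      ∃ t : Fin r → Qbar, absLogHeight t < ε ∧ Off (algebraMap K L) I I' (pt ι v t) ∧
        ∃ h : pt ι v t ≠ 0, p = Projectivization.mk L (pt ι v t) h}).encard ≤ M

/-- the points over `L` of `X` outside of `Z` with homogeneous coordinates `∑ ζ_j v_j`, where the
`ζ_j` are roots of unity -/
def rootPts {r : ℕ} {L : Type} [Field L] (φ : K →+* L)
    (I I' : Ideal (MvPolynomial (Fin (N + 1)) K)) (v : Fin r → Fin (N + 1) → L) :
    Set (Projectivization L (Fin (N + 1) → L)) :=
  {p | ∃ ζ : Fin r → L, (∀ j, ∃ m : ℕ, 0 < m ∧ ζ j ^ m = 1) ∧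
    Off φ I I' (fun a => ∑ j, ζ j * v j a) ∧
    ∃ h : (fun a => ∑ j, ζ j * v j a) ≠ 0, p = Projectivization.mk L _ h}

/-- For every `r` there is `M` such that for all fields `L` containing `K` and all vectors
`v_1, …, v_r` over `L` at most `M` points of `X(L)` outside of `Z` have homogeneous coordinates
`∑ ζ_j v_j` with roots of unity `ζ_j` in `L`. -/
def RootsUniform (I I' : Ideal (MvPolynomial (Fin (N + 1)) K)) : Prop :=
  ∀ r : ℕ, ∃ M : ℕ, ∀ (L : Type) [Field L] [Algebra K L] (v : Fin r → Fin (N + 1) → L),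
    (rootPts (algebraMap K L) I I' v).encard ≤ M

/-- For all `r`, all embeddings of `K` in `ℚ̄` and all vectors `V_1, …, V_r` of algebraic numbers,
only finitely many points of `X(ℚ̄)` outside of `Z` have homogeneous coordinates `∑ ζ_j V_j` with
roots of unity `ζ_j`. -/
def RootsFinite (I I' : Ideal (MvPolynomial (Fin (N + 1)) K)) : Prop :=
  ∀ (r : ℕ) (e : K →+* Qbar) (V : Fin r → Fin (N + 1) → Qbar), (rootPts e I I' V).Finite

end Pool.Agent.X332.FR
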