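import Mathlib
import Pool.Agent.X332.FR.Def
import Pool.Agent.X332.SM.Mix
import Pool.Agent.Y719.SU.Main
import Pool.Agent.Y215.SK.FinB
import Pool.Agent.Y215.SP.Off

set_option autoImplicit false
set_option linter.unusedSectionVars false

/-! Absence of rational curves and sums of few vectors: the curves lie in `Z`. -/

namespace Pool.Agent.X332.FR

open NumberField MvPolynomial
open Pool.Agent.Helper259.AbsHt Pool.Agent.Y719.SU Pool.Agent.Y215.SP Pool.Agent.Y215.SK
open Pool.Agent.H533R3.SL Pool.Agent.TH143.HE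

section gens

variable {K : Type} [Field K] {N : ℕ}

/-- finitely many forms in `I` with the same zeros -/
theorem exists_gens (I : Ideal (MvPolynomial (Fin (N + 1)) K)) :
    ∃ (m d : ℕ) (P : Fin m → MvPolynomial (Fin (N + 1)) K), 1 ≤ d ∧ (∀ i, P i ∈ I) ∧
      (∀ i, ∃ e, e ≤ d ∧ (P i).IsHomogeneous e) ∧
      ∀ G ∈ I, (∃ e, G.IsHomogeneous e) → G ∈ Ideal.span (Set.range P) := by
  classical
  let S : Set (MvPolynomial (Fin (N + 1)) K) := {F | F ∈ I ∧ ∃ e, F.IsHomogeneous e}
  obtain ⟨T, hT, hTS⟩ := (Submodule.fg_span_iff_fg_span_finset_subset (R := MvPolynomial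
    (Fin (N + 1)) K) S).1 (IsNoetherian.noetherian _)
  let P : Fin T.card → MvPolynomial (Fin (N + 1)) K := fun i => (T.equivFin.symm i : T)
  have hPS : ∀ i, P i ∈ S := fun i => hT (T.equivFin.symm i).2
  have hrange : Set.range P = (T : Set (MvPolynomial (Fin (N + 1)) K)) := by
    ext x
    constructor
    · rintro ⟨i, rfl⟩
      exact (T.equivFin.symm i).2
    · intro hx
      exact ⟨T.equivFin ⟨x, hx⟩, by simp [P]⟩
  choose e he using fun i => (hPS i).2
  refine ⟨T.card, ∑ i, e i + 1, P, by omega, fun i => (hPS i).1, fun i => ⟨e i, ?_, he i⟩, ?_⟩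
  · have := Finset.single_le_sum (f := e) (fun _ _ => Nat.zero_le _) (Finset.mem_univ i)
    omega
  · intro G hG hGe
    rw [hrange]
    have h1 : G ∈ Submodule.span (MvPolynomial (Fin (N + 1)) K) S :=
      Submodule.subset_span ⟨hG, hGe⟩
    rw [hTS] at h1
    exact h1

theorem onI_of_gens {A : Type} [CommRing A] (φ : K →+* A)
    (I : Ideal (MvPolynomial (Fin (N + 1)) K)) {m : ℕ} (P : Fin m → MvPolynomial (Fin (N + 1)) K)
    (hP : ∀ G ∈ I, (∃ e, G.IsHomogeneous e) → G ∈ Ideal.span (Set.range P))
    (x : Fin (N + 1) → A) (hx : ∀ i, eval₂ φ x (P i) = 0) : OnI φ I x := by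
  intro G hG hGe
  have h1 : Ideal.span (Set.range P) ≤ RingHom.ker (eval₂Hom φ x) := by
    rw [Ideal.span_le]
    rintro _ ⟨i, rfl⟩
    exact hx i
  exact h1 (hP G hG hGe)

/-- the curves with `r` terms in `X` lie in `Z` -/
theorem curveIn {K : Type} [Field K] [NumberField K] {N r : ℕ}
    {I I' : Ideal (MvPolynomial (Fin (N + 1)) K)} (h : NoRatNF I I')
    {m : ℕ} (P : Fin m → MvPolynomial (Fin (N + 1)) K)
    (hP : ∀ G ∈ I, (∃ e, G.IsHomogeneous e) → G ∈ Ideal.span (Set.range P))
    (G : MvPolynomial (Fin (N + 1)) K) (hG : G ∈ I') (hGh : ∃ e, G.IsHomogeneous e)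
    (L : Type) [Field L] [Algebra K L] (c : Fin r → Fin (N + 1) → L) (l : Fin r → ℕ)
    (h1 : ∀ i, aeval (cur c l) (P i) = 0)
    (h2 : ∃ i i', cur c l i * Polynomial.C (∑ j, c j i') ≠
      cur c l i' * Polynomial.C (∑ j, c j i)) :
    aeval (fun i => ∑ j, c j i) G = 0 := by
  classical
  by_contra hne
  have hmap : (algebraMap K (Polynomial L)) = Polynomial.C.comp (algebraMap K L) := by
    refine RingHom.ext fun a => ?_
    rw [Polynomial.algebraMap_apply]
    rfl
  have hae : ∀ F : MvPolynomial (Fin (N + 1)) K,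
      eval₂ (Polynomial.C.comp (algebraMap K L)) (cur c l) F = aeval (cur c l) F := by
    intro F
    rw [aeval_def, hmap]
  have hcur1 : (fun j => (cur c l j).eval 1) = fun i => ∑ j, c j i := by
    funext i
    exact cur_eval_one c l i
  have hR : RCur ((algebraMap K L).comp (RingHom.id K)) I I' (cur c l) := by
    rw [RingHom.comp_id]
    refine ⟨fun F hF hFh => ?_, ⟨G, hG, hGh, ?_⟩, ?_⟩
    · exact onI_of_gens _ I P hP (cur c l) (fun i => by rw [hae]; exact h1 i) F hF hFh
    · intro h0
      apply hne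
      have h3 := eval₂_eval (algebraMap K L) (cur c l) G 1
      rw [h0, Polynomial.eval_zero, hcur1] at h3
      rw [aeval_def]
      exact h3.symm
    · by_contra hcon
      push Not at hcon
      obtain ⟨i, i', hi⟩ := h2
      apply hi
      rw [← cur_eval_one c l i', ← cur_eval_one c l i]
      ext m
      rw [Polynomial.coeff_mul_C, Polynomial.coeff_mul_C, Polynomial.eval_eq_sum_range,
        Polynomial.eval_eq_sum_range, Finset.mul_sum, Finset.mul_sum]
      set B := (cur c l i').natDegree + (cur c l i).natDegree + 1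
      have e1 : ∀ q q' : Polynomial L, ∀ n', q'.natDegree < n' →
          ∑ k ∈ Finset.range (q'.natDegree + 1), q.coeff m * (q'.coeff k * 1 ^ k) =
          ∑ k ∈ Finset.range n', q.coeff m * q'.coeff k := by
        intro q q' n' hn'
        have e2 : ∀ k, q.coeff m * (q'.coeff k * 1 ^ k) = q.coeff m * q'.coeff k := by
          intro k
          rw [one_pow, mul_one]
        rw [Finset.sum_congr rfl fun k _ => e2 k]
        refine Finset.sum_subset (Finset.range_mono (by omega)) ?_
        intro k _ hk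
        rw [Finset.mem_range, not_lt] at hk
        rw [Polynomial.coeff_eq_zero_of_natDegree_lt (p := q') (n := k) (by omega), mul_zero]
      rw [e1 (cur c l i) (cur c l i') B (by omega), e1 (cur c l i') (cur c l i) B (by omega)]
      refine Finset.sum_congr rfl fun k _ => ?_
      exact hcon i i' m k
  obtain ⟨L', _, _, _, p', hp'⟩ := RCur.spec (k := K) (E := L) (RingHom.id K) hR
  have hchar : CharZero L' := charZero_of_injective_algebraMap (algebraMap K L').injective
  have hfin : FiniteDimensional ℚ L' := FiniteDimensional.trans ℚ K L'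
  have hnf : NumberField L' := ⟨⟩
  rw [RingHom.comp_id] at hp'
  exact h L' p' hp'

end gens

end Pool.Agent.X332.FR
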