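import Mathlib
import Pool.Agent.X332.FR.Core

set_option autoImplicit false
set_option linter.unusedSectionVars false

/-! Rational curves give infinitely many points which are sums of few multiples of vectors. -/

namespace Pool.Agent.X332.FR

open NumberField MvPolynomial
open Pool.Agent.Helper259.AbsHt Pool.Agent.Y719.SU Pool.Agent.Y215.SP Pool.Agent.Y215.SK
open Pool.Agent.H533R3.SL Pool.Agent.TH143.HE
open scoped LinearAlgebra.Projectivization

variable {K : Type} [Field K] {N : ℕ}

theorem inf_of_cur {A : Type} [Field A] {φ : K →+* A}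
    {I I' : Ideal (MvPolynomial (Fin (N + 1)) K)} {p : Fin (N + 1) → Polynomial A}
    (hp : RCur φ I I' p) (S : Set A) (hS : S.Infinite) (T : Set (ℙ A (Fin (N + 1) → A)))
    (hT : ∀ z ∈ S, ∀ h : (fun i => (p i).eval z) ≠ 0, Off φ I I' (fun i => (p i).eval z) →
      Projectivization.mk A _ h ∈ T) : T.Infinite := by
  classical
  obtain ⟨h1, ⟨G', hG', hGh, hne⟩, hnc⟩ := hp
  obtain ⟨j0, hj0⟩ : ∃ j, p j ≠ 0 := by
    by_contra hcon
    push Not at hcon
    obtain ⟨j, k, i, i', h2⟩ := hnc
    apply h2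
    rw [hcon j, hcon k]
  set q0 := eval₂ (Polynomial.C.comp φ) p G' with hq0
  have hfib : ∀ y : Fin (N + 1) → A, y ≠ 0 →
      {z : A | ∀ i j, (p i).eval z * y j = (p j).eval z * y i}.Finite := by
    intro y hy
    obtain ⟨k, hk⟩ := Function.ne_iff.1 hy
    have hk' : y k ≠ 0 := hk
    obtain ⟨j, hj⟩ : ∃ j, p j * Polynomial.C (y k) - p k * Polynomial.C (y j) ≠ 0 := by
      by_contra hcon
      push Not at hcon
      obtain ⟨j, j', i, i', h2⟩ := hnc
      apply h2
      have h3 : ∀ j i, (p j).coeff i * y k = y j * (p k).coeff i := by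
        intro j i
        have h4 := congrArg (fun q => Polynomial.coeff q i) (sub_eq_zero.1 (hcon j))
        simp only [Polynomial.coeff_mul_C] at h4
        rw [h4, mul_comm]
      apply mul_right_cancel₀ (mul_ne_zero hk' hk')
      calc (p j).coeff i * (p j').coeff i' * (y k * y k) =
          ((p j).coeff i * y k) * ((p j').coeff i' * y k) := by ring
        _ = ((p j').coeff i * y k) * ((p j).coeff i' * y k) := by
            rw [h3 j i, h3 j' i', h3 j' i, h3 j i']
            ring
        _ = _ := by ring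
    refine (Polynomial.finite_setOfPred_isRoot hj).subset ?_
    intro z hz
    have h3 := hz j k
    show Polynomial.eval z _ = 0
    rw [Polynomial.eval_sub, Polynomial.eval_mul, Polynomial.eval_mul, Polynomial.eval_C,
      Polynomial.eval_C, h3, sub_self]
  have hbad : {z : A | (p j0 * q0).eval z = 0}.Finite :=
    Polynomial.finite_setOfPred_isRoot (mul_ne_zero hj0 hne)
  intro hfin
  refine hS ((hbad.union (hfin.biUnion fun P _ => hfib P.rep P.rep_nonzero)).subset ?_)
  intro z hz
  by_cases hb : (p j0 * q0).eval z = 0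
  · exact Or.inl hb
  · right
    rw [Polynomial.eval_mul] at hb
    have h2 : (p j0).eval z ≠ 0 := left_ne_zero_of_mul hb
    have h3 : q0.eval z ≠ 0 := right_ne_zero_of_mul hb
    have h4 : (fun i => (p i).eval z) ≠ 0 := fun h => h2 (congrFun h j0)
    have h5 : Off φ I I' (fun i => (p i).eval z) := by
      refine ⟨h4, fun G hG hGf => ?_, fun hcon => ?_⟩
      · rw [← eval₂_eval, h1 G hG hGf, Polynomial.eval_zero]
      · apply h3
        rw [hq0, eval₂_eval]
        exact hcon G' hG' hGh
    rw [Set.mem_iUnion₂]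
    refine ⟨_, hT z hz h4 h5, ?_⟩
    obtain ⟨a, ha⟩ := Projectivization.exists_smul_eq_mk_rep A _ h4
    intro i j
    rw [← ha]
    show _ * ((a : A) • (fun i => (p i).eval z)) j = _ * ((a : A) • (fun i => (p i).eval z)) i
    simp only [Pi.smul_apply, smul_eq_mul]
    ring

variable [NumberField K] {I I' : Ideal (MvPolynomial (Fin (N + 1)) K)}

theorem exists_emb (L : Type) [Field L] [NumberField L] : Nonempty (L →+* Qbar) :=
  ⟨(IsAlgClosed.lift : L →ₐ[ℚ] Qbar).toRingHom⟩

theorem noRat_of_roots (h : RootsFinite I I') : NoRatNF I I' := by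
  classical
  intro L _ _ _ p hp
  obtain ⟨φ⟩ := exists_emb L
  have hq := hp.map φ
  set r : ℕ := (Finset.univ.sup fun j => (p j).natDegree) + 1 with hr
  have hdeg : ∀ j, (p j).natDegree < r := fun j =>
    Nat.lt_succ_of_le (Finset.le_sup (f := fun j => (p j).natDegree) (Finset.mem_univ j))
  have hpt : ∀ z : Qbar, (fun i => ((p i).map φ).eval z) =
      fun a => ∑ j : Fin r, z ^ (j : ℕ) * φ ((p a).coeff j) := by
    intro z
    funext i
    have hdeg' : ((p i).map φ).natDegree < r := lt_of_le_of_lt Polynomial.natDegree_map_le (hdeg i)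
    rw [Polynomial.eval_eq_sum_range' hdeg', ← Fin.sum_univ_eq_sum_range
      (fun k => ((p i).map φ).coeff k * z ^ k)]
    refine Finset.sum_congr rfl fun j _ => ?_
    rw [Polynomial.coeff_map, mul_comm]
  refine inf_of_cur hq _ X332.SM.infinite_roots
    (rootPts (r := r) (φ.comp (algebraMap K L)) I I' (fun j i => φ ((p i).coeff j))) ?_
    (h r (φ.comp (algebraMap K L)) _)
  rintro z ⟨m, hm, hzm⟩ h0 hoff
  rw [hpt] at hoff
  have h0' : (fun a => ∑ j : Fin r, z ^ (j : ℕ) * φ ((p a).coeff j)) ≠ 0 := hoff.1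
  refine ⟨fun j => z ^ (j : ℕ), fun j => ⟨m, hm, ?_⟩, hoff, h0', ?_⟩
  · rw [← pow_mul, mul_comm, pow_mul, hzm, one_pow]
  · exact mk_congr _ _ (hpt z)

theorem noRat_of_sumFinite (h : SumFinite I I') : NoRatNF I I' := by
  classical
  intro L _ _ _ p hp
  obtain ⟨φ⟩ := exists_emb L
  set r : ℕ := (Finset.univ.sup fun j => (p j).natDegree) + 1 with hr
  have hdeg : ∀ j, (p j).natDegree < r := fun j =>
    Nat.lt_succ_of_le (Finset.le_sup (f := fun j => (p j).natDegree) (Finset.mem_univ j))
  have hpt : ∀ z : L, (fun i => (p i).eval z) =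
      fun a => ∑ j : Fin r, z ^ (j : ℕ) * (p a).coeff j := by
    intro z
    funext i
    rw [Polynomial.eval_eq_sum_range' (hdeg i), ← Fin.sum_univ_eq_sum_range
      (fun k => (p i).coeff k * z ^ k)]
    exact Finset.sum_congr rfl fun j _ => mul_comm _ _
  let two : Qbarˣ := Units.mk0 2 two_ne_zero
  have hΓ : (Subgroup.zpowers two).FG := ⟨{two}, by
    rw [Finset.coe_singleton, ← Subgroup.zpowers_eq_closure]⟩
  have hS : (Set.range fun m : ℕ => (2 : L) ^ m).Infinite :=
    Set.infinite_range_of_injective (two_pow_inj L)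
  refine inf_of_cur hp _ hS _ ?_
    (h L φ (Subgroup.zpowers two) hΓ r (hV fun (j : Fin r) i => φ ((p i).coeff j)))
  rintro _ ⟨m, rfl⟩ h0 hoff
  refine ⟨_, h0, rfl, hoff, fun j => two ^ (m * (j : ℕ)), _, fun j => ⟨1, one_pos, ?_⟩, le_rfl, ?_⟩
  · rw [pow_one]
    exact Subgroup.pow_mem _ (Subgroup.mem_zpowers _) _
  · funext a
    have h1 : (p a).eval ((2 : L) ^ m) = _ := congrFun (hpt ((2 : L) ^ m)) a
    show Y215.SK.psum Finset.univ _ _ a = φ ((p a).eval ((2 : L) ^ m))
    rw [h1, map_sum]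
    unfold Y215.SK.psum
    refine Finset.sum_congr rfl fun j _ => ?_
    show ((two ^ (m * (j : ℕ)) : Qbarˣ) : Qbar) * φ ((p a).coeff j) = _
    rw [map_mul, map_pow, map_pow, map_ofNat, ← pow_mul, Units.val_pow_eq_pow_val]
    rfl

end Pool.Agent.X332.FR
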