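import Mathlib
import Pool.Agent.X332.FR.Conv

set_option autoImplicit false
set_option linter.unusedSectionVars false

/-! Absence of rational curves and sums of few vectors: the equivalence. -/

namespace Pool.Agent.X332.FR

open NumberField MvPolynomial
open Pool.Agent.Helper259.AbsHt Pool.Agent.Y719.SU Pool.Agent.Y215.SP Pool.Agent.Y215.SK
open Pool.Agent.H533R3.SL Pool.Agent.TH143.HE
open scoped LinearAlgebra.Projectivization

variable {K : Type} [Field K] [NumberField K] {N : ℕ}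
variable {I I' : Ideal (MvPolynomial (Fin (N + 1)) K)}

theorem off_gens {L : Type} [Field L] [Algebra K L] {m m' : ℕ}
    {P : Fin m → MvPolynomial (Fin (N + 1)) K} {Q : Fin m' → MvPolynomial (Fin (N + 1)) K}
    (hPI : ∀ i, P i ∈ I) (hPe : ∀ i, ∃ e, (P i).IsHomogeneous e)
    (hQ : ∀ G ∈ I', (∃ e, G.IsHomogeneous e) → G ∈ Ideal.span (Set.range Q))
    {x : Fin (N + 1) → L} (hx : Off (algebraMap K L) I I' x) : ∃ b, OnOff P (Q b) x := by
  by_contra hcon
  apply hx.2.2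
  refine onI_of_gens _ I' Q hQ x fun b => ?_
  by_contra hb
  exact hcon ⟨b, hx.1, fun i => hx.2.1 (P i) (hPI i) (hPe i), hb⟩

theorem sumHeight_of (h : NoRatNF I I') : SumHeight I I' := by
  classical
  intro e Γ hΓ r
  let _ : Algebra K Qbar := e.toAlgebra
  obtain ⟨m, d, P, hd, hPI, hPe, hP⟩ := exists_gens I
  obtain ⟨m', d', Q, hd', hQI, hQe, hQ⟩ := exists_gens I'
  have hPe' : ∀ i, ∃ e, (P i).IsHomogeneous e := fun i => (hPe i).imp fun _ h => h.2
  have hQe' : ∀ i, ∃ e, (Q i).IsHomogeneous e := fun i => (hQe i).imp fun _ h => h.2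
  have key : ∀ b, ∃ C : ℝ, ∀ (u : Fin r → Qbarˣ) (V : Fin r → Fin (N + 1) → Qbar),
      (∀ j, u j ∈ DivHull Γ) → OnOff P (Q b) (Y215.SK.psum Finset.univ u V) →
      ∃ J : Finset (Fin r), Good J u V ∧
        absLogHeight (fun j : J => (u j : Qbar)) ≤ C * (1 + hV V) := fun b =>
    mult_bound P hPe' (Q b) (hQe' b)
      (fun L _ _ c l h1 h2 => curveIn h P hP (Q b) (hQI b) (hQe' b) L c l h1 h2) Γ hΓ
  choose C hC using key
  refine ⟨∑ b, |C b| + r + 1, fun u V hu hoff => ?_⟩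
  obtain ⟨b, hb⟩ := off_gens (L := Qbar) hPI hPe' hQ hoff
  obtain ⟨J, hJ, hh⟩ := hC b u V hu hb
  obtain ⟨c, hc, hc2⟩ := good_prop J u V hJ hoff.1
  have hV0 : 0 ≤ hV V := absLogHeight_nonneg _
  have hr : (0 : ℝ) ≤ r := Nat.cast_nonneg r
  have hCb : C b ≤ ∑ b, |C b| := (le_abs_self _).trans
    (Finset.single_le_sum (f := fun b => |C b|) (fun _ _ => abs_nonneg _) (Finset.mem_univ b))
  have h4 : C b * (1 + hV V) ≤ (∑ b, |C b|) * (1 + hV V) :=
    mul_le_mul_of_nonneg_right hCb (by linarith)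
  have h5 : 0 ≤ (r : ℝ) * hV V := mul_nonneg hr hV0
  rw [← absLogHeight_smul _ hc, ← hc2]
  have h6 := psum_height J u V
  nlinarith

theorem off_map {L A : Type} [Field L] [Field A] [Algebra K L] (φ : L →+* A)
    (x : Fin (N + 1) → L) : Off (φ.comp (algebraMap K L)) I I' (fun a => φ (x a)) ↔
      Off (algebraMap K L) I I' x := by
  have h1 : ∀ G : MvPolynomial (Fin (N + 1)) K,
      eval₂ (φ.comp (algebraMap K L)) (fun a => φ (x a)) G = φ (eval₂ (algebraMap K L) x G) :=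
    fun G => (eval₂_comp_left φ (algebraMap K L) x G).symm
  have h2 : ∀ J : Ideal (MvPolynomial (Fin (N + 1)) K),
      OnI (φ.comp (algebraMap K L)) J (fun a => φ (x a)) ↔ OnI (algebraMap K L) J x := by
    intro J
    unfold OnI
    simp only [h1, map_eq_zero]
  unfold Off
  rw [h2, h2]
  refine and_congr_left fun _ => ?_
  constructor
  · intro h hx
    apply h
    funext a
    rw [hx]
    exact map_zero φ
  · intro h
    exact X332.SM.vec_ne φ h

theorem sumFinite_of (h : SumHeight I I') : SumFinite I I' := by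
  intro L _ _ _ φ Γ hΓ r B
  obtain ⟨C, hC⟩ := h (φ.comp (algebraMap K L)) Γ hΓ r
  refine (northcott_proj L φ (|C| * (1 + |B|))).subset ?_
  rintro p ⟨y, hy, rfl, hoff, u, V, hu, hB, hps⟩
  refine ⟨y, hy, rfl, ?_⟩
  have h1 := hC u V hu (by rw [hps]; exact (off_map φ y).2 hoff)
  rw [hps] at h1
  have hV0 : 0 ≤ hV V := absLogHeight_nonneg _
  refine h1.trans ?_
  exact mul_le_mul (le_abs_self C) (by linarith [le_abs_self B]) (by linarith) (abs_nonneg C)

theorem nearFinite_of (h : NoRatNF I I') : NearFinite I I' := by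
  classical
  intro r
  obtain ⟨m, d, P, hd, hPI, hPe, hP⟩ := exists_gens I
  obtain ⟨m', d', Q, hd', hQI, hQe, hQ⟩ := exists_gens I'
  have hPe' : ∀ i, ∃ e, (P i).IsHomogeneous e := fun i => (hPe i).imp fun _ h => h.2
  have hQe' : ∀ i, ∃ e, (Q i).IsHomogeneous e := fun i => (hQe i).imp fun _ h => h.2
  have hm : 1 ≤ (d + 1) ^ r := Nat.one_le_pow _ _ (Nat.succ_pos d)
  have hd0 : (0 : ℝ) < d := by exact_mod_cast hd
  have hε : 0 < epsn ((d + 1) ^ r) / (d : ℝ) / 2 := half_pos (div_pos (epsn_pos _ hm) hd0)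
  refine ⟨epsn ((d + 1) ^ r) / d / 2, hε, fun e Γ hΓ => ?_⟩
  let _ : Algebra K Qbar := e.toAlgebra
  have key : ∀ b, ∃ (A : ℝ) (k : ℕ), ∀ V : Fin r → Fin (N + 1) → Qbar,
      (mixPts P (Q b) Γ (epsn ((d + 1) ^ r) / d / 2) V).Finite ∧
      ((mixPts P (Q b) Γ (epsn ((d + 1) ^ r) / d / 2) V).ncard : ℝ) ≤ A * (1 + hV V) ^ k :=
    fun b => mix_finite P d hd hPe (Q b) (hQe' b)
      (fun L _ _ c l h1 h2 => curveIn h P hP (Q b) (hQI b) (hQe' b) L c l h1 h2) Γ hΓ
  choose A k hA using key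
  refine ⟨∑ b, |A b|, ∑ b, k b, fun V => ?_⟩
  set ε := epsn ((d + 1) ^ r) / (d : ℝ) / 2
  have hsub : nearPts e I I' Γ ε V ⊆ ⋃ b, mixPts P (Q b) Γ ε V := by
    rintro p ⟨u, s, hu, hs, hoff, h0, rfl⟩
    obtain ⟨b, hb⟩ := off_gens (L := Qbar) hPI hPe' hQ hoff
    rw [Set.mem_iUnion]
    exact ⟨b, u, s, hu, hs, hb, h0, rfl⟩
  have hfin : (⋃ b, mixPts P (Q b) Γ ε V).Finite := Set.finite_iUnion fun b => (hA b V).1
  refine ⟨hfin.subset hsub, ?_⟩
  have hV0 : 0 ≤ hV V := absLogHeight_nonneg _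
  have h1 : (nearPts e I I' Γ ε V).ncard ≤ ∑ b, (mixPts P (Q b) Γ ε V).ncard :=
    (Set.ncard_le_ncard hsub hfin).trans (Set.ncard_iUnion_le_of_fintype _)
  have h2 : ((nearPts e I I' Γ ε V).ncard : ℝ) ≤
      ∑ b, ((mixPts P (Q b) Γ ε V).ncard : ℝ) := by exact_mod_cast h1
  refine h2.trans ?_
  rw [Finset.sum_mul]
  refine Finset.sum_le_sum fun b _ => (hA b V).2.trans ?_
  have h3 : (1 + hV V) ^ k b ≤ (1 + hV V) ^ (∑ b, k b) :=
    pow_le_pow_right₀ (by linarith)
      (Finset.single_le_sum (f := k) (fun _ _ => Nat.zero_le _) (Finset.mem_univ b))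
  exact mul_le_mul (le_abs_self _) h3 (pow_nonneg (by linarith) _) (abs_nonneg _)

theorem smallUniform_of (h : NoRatNF I I') : SmallUniform I I' := by
  classical
  intro r
  obtain ⟨m, d, P, hd, hPI, hPe, hP⟩ := exists_gens I
  obtain ⟨m', d', Q, hd', hQI, hQe, hQ⟩ := exists_gens I'
  have hPe' : ∀ i, ∃ e, (P i).IsHomogeneous e := fun i => (hPe i).imp fun _ h => h.2
  have hQe' : ∀ i, ∃ e, (Q i).IsHomogeneous e := fun i => (hQe i).imp fun _ h => h.2
  have hm : 1 ≤ (d + 1) ^ r := Nat.one_le_pow _ _ (Nat.succ_pos d)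
  have hd0 : (0 : ℝ) < d := by exact_mod_cast hd
  have hε : 0 < epsn ((d + 1) ^ r) / (d : ℝ) := div_pos (epsn_pos _ hm) hd0
  refine ⟨epsn ((d + 1) ^ r) / d, Nat.card (Fin m') * (2 ^ r * M0 ((d + 1) ^ r) d r), hε,
    fun L _ _ ι v => ?_⟩
  refine encard_le_mul _ (fun b : Fin m' => smallOff ι P (Q b) (epsn ((d + 1) ^ r) / d) v)
    (2 ^ r * M0 ((d + 1) ^ r) d r) ?_ fun b => ?_
  · rintro p ⟨t, ht, hoff, h0, rfl⟩
    obtain ⟨b, hb⟩ := off_gens hPI hPe' hQ hoff
    rw [Set.mem_iUnion]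
    exact ⟨b, t, ht, hb.2.1, hb.2.2, h0, rfl⟩
  · exact card_smallOff P d hd hPe (Q b)
      (fun c l h1 h2 => curveIn h P hP (Q b) (hQI b) (hQe' b) L c l h1 h2) ι v

theorem rootsUniform_of (h : SmallUniform I I') : RootsUniform I I' := by
  classical
  intro r
  obtain ⟨ε, M, hε, hM⟩ := h r
  refine ⟨M, fun L _ _ v => ?_⟩
  have hL : CharZero L := charZero_of_injective_algebraMap (algebraMap K L).injective
  let L' := AlgebraicClosure L
  have hL' : CharZero L' := charZero_of_injective_algebraMap (algebraMap L L').injective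
  obtain ⟨ι⟩ : Nonempty (Qbar →+* L') := X332.SM.embed L'
  let φ : L →+* L' := algebraMap L L'
  let _ : Algebra K L' := (φ.comp (algebraMap K L)).toAlgebra
  rw [← (X332.SM.pmap_injective (n := N) φ).injOn.encard_image]
  refine (Set.encard_le_encard ?_).trans (hM L' ι (fun j a => φ (v j a)))
  rintro _ ⟨p, ⟨ζ, hζ, hoff, h0, rfl⟩, rfl⟩
  have hroot : ∀ j, ∃ t : Qbar, ι t = φ (ζ j) ∧ ∃ m : ℕ, 0 < m ∧ t ^ m = 1 := by
    intro j
    obtain ⟨m, hm, hm1⟩ := hζ j
    have hsp : ((Polynomial.X ^ m - 1 : Polynomial Qbar)).Splits := IsAlgClosed.splits _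
    have hne : ((Polynomial.X ^ m - 1 : Polynomial Qbar)) ≠ 0 :=
      (Polynomial.monic_X_pow_sub_C 1 hm.ne').ne_zero
    have hmem : φ (ζ j) ∈ ((Polynomial.X ^ m - 1 : Polynomial Qbar).map ι).roots := by
      rw [Polynomial.mem_roots (Polynomial.map_ne_zero hne), Polynomial.IsRoot.def]
      rw [Polynomial.map_sub, Polynomial.map_pow, Polynomial.map_X, Polynomial.map_one,
        Polynomial.eval_sub, Polynomial.eval_pow, Polynomial.eval_X, Polynomial.eval_one,
        ← map_pow, hm1, map_one, sub_self]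
    rw [hsp.roots_map, Multiset.mem_map] at hmem
    obtain ⟨t, ht, hte⟩ := hmem
    refine ⟨t, hte, m, hm, ?_⟩
    rw [Polynomial.mem_roots hne, Polynomial.IsRoot.def, Polynomial.eval_sub, Polynomial.eval_pow,
      Polynomial.eval_X, Polynomial.eval_one, sub_eq_zero] at ht
    exact ht
  choose t ht m hm htm using hroot
  have e : pt ι (fun j a => φ (v j a)) t = fun a => φ (∑ j, ζ j * v j a) := by
    funext a
    rw [map_sum]
    refine Finset.sum_congr rfl fun j _ => ?_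
    rw [ht, map_mul]
  have hoff' : Off (algebraMap K L') I I' (pt ι (fun j a => φ (v j a)) t) := by
    rw [e]
    exact (off_map φ (fun a => ∑ j, ζ j * v j a)).2 hoff
  refine ⟨t, ?_, hoff', hoff'.1, ?_⟩
  · refine lt_of_le_of_lt (height_le_sum t) ?_
    rw [Finset.sum_eq_zero fun j _ => X332.SM.h1_root (t j) (m j) (hm j) (htm j)]
    exact hε
  · rw [X332.SM.pmap_mk]
    exact mk_congr _ _ e.symm

theorem rootsFinite_of_uniform (h : RootsUniform I I') : RootsFinite I I' := by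
  intro r e V
  obtain ⟨M, hM⟩ := h r
  let _ : Algebra K Qbar := e.toAlgebra
  exact Set.finite_of_encard_le_coe (hM Qbar V)

theorem rootPts_subset {r : ℕ} (e : K →+* Qbar) (Γ : Subgroup Qbarˣ) (ε : ℝ) (hε : 0 < ε)
    (V : Fin r → Fin (N + 1) → Qbar) : rootPts e I I' V ⊆ nearPts e I I' Γ ε V := by
  rintro p ⟨ζ, hζ, hoff, h0, rfl⟩
  have hz : ∀ j, ζ j ≠ 0 := by
    intro j h
    obtain ⟨m, hm, hm1⟩ := hζ j
    rw [h, zero_pow hm.ne'] at hm1
    exact zero_ne_one hm1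
  have e1 : Y215.SK.psum Finset.univ (fun j => Units.mk0 (ζ j) (hz j))
      (fun j a => (1 : Qbar) * V j a) = fun a => ∑ j, ζ j * V j a := by
    funext a
    unfold Y215.SK.psum
    refine Finset.sum_congr rfl fun j _ => ?_
    show ((Units.mk0 (ζ j) (hz j) : Qbarˣ) : Qbar) * (1 * V j a) = ζ j * V j a
    rw [Units.val_mk0, one_mul]
  refine ⟨fun j => Units.mk0 (ζ j) (hz j), fun _ => 1, fun j => ?_, ?_, ?_, ?_⟩
  · obtain ⟨m, hm, hm1⟩ := hζ j
    refine ⟨m, hm, ?_⟩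
    have h3 : (Units.mk0 (ζ j) (hz j)) ^ m = 1 := by
      apply Units.ext
      rw [Units.val_pow_eq_pow_val, Units.val_mk0, hm1, Units.val_one]
    rw [h3]
    exact Subgroup.one_mem _
  · rw [Y215.SP.abs_one]
    exact hε
  · rw [e1]
    exact hoff
  · have h3 : Y215.SK.psum Finset.univ (fun j => Units.mk0 (ζ j) (hz j))
        (fun j a => (1 : Qbar) * V j a) ≠ 0 := by
      rw [e1]
      exact h0
    exact ⟨h3, mk_congr _ _ e1.symm⟩

theorem rootsFinite_of_near (h : NearFinite I I') : RootsFinite I I' := by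
  intro r e V
  obtain ⟨ε, hε, h1⟩ := h r
  obtain ⟨A, m, h2⟩ := h1 e ⊥ ⟨∅, by simp⟩
  exact (h2 V).1.subset (rootPts_subset e ⊥ ε hε V)

/-- **The equivalence.** -/
theorem main_fr (σ : K →+* ℂ) (I I' : Ideal (MvPolynomial (Fin (N + 1)) K)) :
    [NoRat σ I I', SumHeight I I', SumFinite I I', NearFinite I I', SmallUniform I I',
      RootsUniform I I', RootsFinite I I'].TFAE := by
  tfae_have 1 → 2 := fun h => sumHeight_of (noRatNF_of σ h)
  tfae_have 2 → 3 := sumFinite_of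
  tfae_have 3 → 1 := fun h => noRat_of_NF σ (noRat_of_sumFinite h)
  tfae_have 1 → 4 := fun h => nearFinite_of (noRatNF_of σ h)
  tfae_have 4 → 7 := rootsFinite_of_near
  tfae_have 1 → 5 := fun h => smallUniform_of (noRatNF_of σ h)
  tfae_have 5 → 6 := rootsUniform_of
  tfae_have 6 → 7 := rootsFinite_of_uniform
  tfae_have 7 → 1 := fun h => noRat_of_NF σ (noRat_of_roots h)
  tfae_finish

end Pool.Agent.X332.FR
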